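import Pool.Agent.H442.SpecE
import Pool.Agent.H442.Fin6
set_option autoImplicit false

/-!
Integral classes in the motivic cohomology `H^{d+1}(X, ℚ(d+1))` of fibrations of Calabi-Yau varieties
over the line (`dim X = d`, so that the arithmetic scheme has dimension `d + 1`; index `i = d` of the
problem).

Let `π : {1, ..., d} → {1, ..., m}` and let `w_l ≥ 1`, `e_b ≥ 1` be weights. For monic polynomials
`A`, `D` of degrees `n > p ≥ 1` consider the variety `X` of dimension `d` with the equations
`∏_b (z_b + ∑_{π(l) = b} y_l) = A(x) / D(x) ≠ 0` and `z_b^{e_b} ∏_{π(l) = b} y_l^{w_l} = 1`. For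
example, for `m = 1` and all weights equal to one the fibres over the line are the mirror manifolds of
the Calabi-Yau hypersurfaces of degree `d + 1` in the projective space:
`y_1 + ... + y_d + 1 / (y_1 ... y_d) = A(x) / D(x)` (elliptic surfaces for `d = 2`, fibrations of
K3 surfaces for `d = 3`, the mirror quintics for `d = 4`); other weights correspond to the weighted
projective spaces `ℙ(e_b, (w_l)_{π(l) = b})` and their products (the fibres are Calabi-Yau varieties
if these are Gorenstein).

For `r p < n` the varieties of this form over the rational numbers with `r` classes in `K_{d+1}`,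
unramified at all discrete valuations and with independent regulators, are Zariski dense in the space
of all pairs `(A, D)`.

The members are, up to translations of `x`, `D = ∏_{l ≤ p} (x - β_l)`, `β_l` different prime
numbers, and `A = x ∏_{k ≤ r} R_k ∏_i (x - λ_i)` with the monic polynomials `R_k ≡ x^{j_k} mod D`
of degree `p`, with large different exponents `j_k`; the classes are the symbols
`{R_k(x) / x^{j_k}, y_1, ..., y_d}`.
-/

namespace Pool.Agent.Results.MP_51fc19_nt.CalabiYauFibrations

open Polynomial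

open Pool.Agent.TH826.MK (KQ KQ.map Unramified Torus)

open Pool.Agent.H442

/-- Let `π : {1, ..., d} → {1, ..., m}`, let `w_l ≥ 1`, `e_b ≥ 1`, and let `p, r ≥ 1`, `r p < n`.
For every nonzero complex polynomial `H` in the `n + p` coefficients of a pair of monic polynomials
of degrees `n` and `p` there are monic polynomials `A`, `D` in `ℤ[x]` of degrees `n` and `p`, which
are not a zero of `H`, such that for the coordinate ring `ER π w e A D` of the variety
`D(x) ∏_b (z_b + ∑_{π(l) = b} y_l) = A(x) ≠ 0`, `z_b^{e_b} ∏_{π(l) = b} y_l^{w_l} = 1` over `ℚ`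
there are `r` classes in `K_{d+1}(ER π w e A D) ⊗ ℚ`, whose images in all fields `L` with a
homomorphism `ER π w e A D → L` are unramified at all discrete valuations of `L`, and `r` tori of
dimension `d` in the complex points, at which the derivative of the equation with respect to `x` is
different from zero, such that the determinant of the regulators of the classes on the tori is
different from zero. -/
theorem result.{v} {d m : ℕ} (π : Fin d → Fin m) (w : Fin d → ℕ) (hw : ∀ l, 1 ≤ w l)
    (e : Fin m → ℕ) (he : ∀ b, 1 ≤ e b) (n p r : ℕ) (hp : 1 ≤ p) (hr : 1 ≤ r) (hrp : r * p < n)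
    (H : MvPolynomial (Fin n ⊕ Fin p) ℂ) (hH : H ≠ 0) :
    ∃ A D : ℤ[X], A.Monic ∧ A.natDegree = n ∧ D.Monic ∧ D.natDegree = p ∧
      MvPolynomial.eval (Sum.elim (fun i : Fin n => (A.coeff i : ℂ))
        (fun l : Fin p => (D.coeff l : ℂ))) H ≠ 0 ∧
      ∃ c : Fin r → KQ (ER π w e A D) (d + 1),
        (∀ (k : Fin r) (L : Type v) [Field L] (f : ER π w e A D →+* L),
          KQ.map (d + 1) f (c k) ∈ Unramified L (d + 1)) ∧
        ∃ Γ : Fin r → Torus (ER π w e A D) d,
          (∀ i θ, (Γ i).e θ (mkE π w e A D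
            (MvPolynomial.pderiv (Sum.inr (Sum.inr 0)) (eqnE π A D))) ≠ 0) ∧
          (Matrix.of fun i k => (Γ i).reg (c k)).det ≠ 0 := by
  obtain ⟨g, rfl⟩ : ∃ g, n = g + 1 := ⟨n - 1, by omega⟩
  obtain ⟨H', hH', hHH⟩ := exists_rat H hH
  have hV : ¬ Van3 r (g - r * p) H' := fun h => hH' (dens3 hp (by omega) h)
  unfold Van3 at hV
  push Not at hV
  obtain ⟨β, hβ, hpr, lam, hV⟩ := hV
  have hMm : (∏ i, (X - C (lam i)) : ℤ[X]).Monic := monic_prod_of_monic _ _ fun _ _ =>
    monic_X_sub_C _
  have hMd : (∏ i, (X - C (lam i)) : ℤ[X]).natDegree = g - r * p := by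
    rw [natDegree_prod_of_monic _ _ fun _ _ => monic_X_sub_C _]
    simp only [natDegree_X_sub_C, Finset.sum_const, Finset.card_univ, Fintype.card_fin,
      smul_eq_mul, mul_one]
  obtain ⟨J, hJ⟩ := specE π hw he hp hβ (fun l => (hpr l).two_le) hMm (r := r) (by omega)
  obtain ⟨j, hj, hjJ, ν, hne⟩ := hV J
  have hAm : (X * (∏ k, Rz β (j k)) * ∏ i, (X - C (lam i)) : ℤ[X]).Monic :=
    (monic_X.mul (monic_prod_of_monic _ _ fun k _ => Rz_monic β (j k))).mul hMm
  have hAd : (X * (∏ k, Rz β (j k)) * ∏ i, (X - C (lam i)) : ℤ[X]).natDegree = g + 1 := by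
    rw [(monic_X.mul (monic_prod_of_monic _ _ fun k _ => Rz_monic β (j k))).natDegree_mul hMm,
      monic_X.natDegree_mul (monic_prod_of_monic _ _ fun k _ => Rz_monic β (j k)), hMd,
      natDegree_X, natDegree_prod_of_monic _ _ fun k _ => Rz_monic β (j k)]
    simp only [Rz_natDegree, Finset.sum_const, Finset.card_univ, Fintype.card_fin, smul_eq_mul]
    omega
  have hX1 : (X + C ν : ℤ[X]).natDegree = 1 := natDegree_X_add_C ν
  have hAF : AF (fun k => Rz β (j k)) lam ν =
      (X * (∏ k, Rz β (j k)) * ∏ i, (X - C (lam i))).comp (X + C ν) := rfl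
  rw [hAF] at hne
  refine ⟨(X * (∏ k, Rz β (j k)) * ∏ i, (X - C (lam i))).comp (X + C ν),
    (Dz β).comp (X + C ν), hAm.comp (monic_X_add_C ν) (by rw [hX1]; norm_num),
    by rw [natDegree_comp, hX1, mul_one, hAd],
    (Dz_monic β).comp (monic_X_add_C ν) (by rw [hX1]; norm_num),
    by rw [natDegree_comp, hX1, mul_one, Dz_natDegree], ?_,
    hJ j hj hjJ ν _ _ rfl rfl⟩
  have h3 := hHH (Sum.elim (fun i : Fin (g + 1) =>
      (((X * (∏ k, Rz β (j k)) * ∏ i, (X - C (lam i))).comp (X + C ν)).coeff i : ℚ))
    (fun l : Fin p => (((Dz β).comp (X + C ν)).coeff l : ℚ))) (by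
      rw [MvPolynomial.aeval_def, MvPolynomial.eval₂_eq_eval_map] at hne
      simpa using hne)
  have h4 : (fun i => algebraMap ℚ ℂ (Sum.elim (fun i : Fin (g + 1) =>
      (((X * (∏ k, Rz β (j k)) * ∏ i, (X - C (lam i))).comp (X + C ν)).coeff i : ℚ))
      (fun l : Fin p => (((Dz β).comp (X + C ν)).coeff l : ℚ)) i)) =
      Sum.elim (fun i : Fin (g + 1) =>
        (((X * (∏ k, Rz β (j k)) * ∏ i, (X - C (lam i))).comp (X + C ν)).coeff i : ℂ))
        (fun l : Fin p => (((Dz β).comp (X + C ν)).coeff l : ℂ)) := by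
    funext i
    rcases i with i | i <;> simp
  rwa [h4] at h3

end Pool.Agent.Results.MP_51fc19_nt.CalabiYauFibrations
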