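import Pool.Agent.H442.SKo
set_option autoImplicit false
set_option linter.unusedSectionVars false

/-!
`H³(E, ℚ(2)) = H¹(E, K_2) ⊗ ℚ` of elliptic curves `E` (the case `d = 2`, `i = 0` of the problem).

`E` is the elliptic curve `W` over a field `K`, `L` its function field. The cokernel of the tame
symbols `K_2(L) ⊗ ℚ → ⨁_P κ(P)ˣ ⊗ ℚ` is `H³(E, ℚ(2))`. For `Q ∈ E(K)` and `a ∈ Kˣ` let `{Q, a}` be
the class of `a` at `Q` minus the class of `a` at `0`. If `K` is a number field, then these classes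
come from `H³(𝒳, ℚ(2))`, `𝒳` a regular proper model of `E`, and they should vanish, as
`H³(𝒳, ℚ(2)) = 0` is predicted (`r_0` is injective and `D³ → CH⁰(X)*_ℝ` is an isomorphism of
one-dimensional spaces).
-/

namespace Pool.Agent.Results.MP_51fc19_nt.ConstantsAtPoints

open Pool.Agent.H442.SK

open WeierstrassCurve IsDedekindDomain

universe u v w

section

variable {K : Type u} [Field K] [DecidableEq K] {W : Affine K} (L : Type v) [Field L]
  [Algebra K L] [Algebra W.CoordinateRing L]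

/-- `{Q, a}` is additive in the point `Q`. -/
def Additivity (Λ : AddSubgroup W.Point) : Prop :=
  ∀ Q ∈ Λ, ∀ R ∈ Λ, ∀ a : Kˣ, br L (Q + R) a = br L Q a + br L R a

/-- `lam` is a homomorphism on `Λ`, and `lam(Q) = {Q, 2 y(Q) + a₁ x(Q) + a₃}`. -/
def IsLam (Λ : AddSubgroup W.Point) (lam : W.Point → SKone K L) : Prop :=
  (∀ Q ∈ Λ, ∀ R ∈ Λ, lam (Q + R) = lam Q + lam R) ∧
  ∀ Q ∈ Λ, Q ≠ 0 → psi Q ≠ 0 ∧ ∀ c : Kˣ, (c : K) = psi Q → lam Q = br L Q c

/-- `3 {Q, x(a Q) - x(b Q)} = 2 lam(Q)`. -/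
def Multiples (Λ : AddSubgroup W.Point) (lam : W.Point → SKone K L) : Prop :=
  ∀ Q ∈ Λ, Q ≠ 0 → ∀ a b : ℤ, a ≠ 0 → b ≠ 0 → a ≠ b → a ≠ -b →
    xc (a • Q) ≠ xc (b • Q) ∧
    ∀ c : Kˣ, (c : K) = xc (a • Q) - xc (b • Q) → 3 • br L Q c = 2 • lam Q

/-- `2 {Q, x(Q) - e₁} = {Q, (e₁ - e₂)(e₁ - e₃)}`, if the points of order two are rational. -/
def AtTwoTorsion (Λ : AddSubgroup W.Point) : Prop :=
  ∀ e₁ e₂ e₃ : K, Two W e₁ e₂ e₃ → ∀ Q ∈ Λ, Q ≠ 0 → xc Q ≠ e₁ ∧
    ∀ c d : Kˣ, (c : K) = xc Q - e₁ → (d : K) = (e₁ - e₂) * (e₁ - e₃) →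
      2 • br L Q c = br L Q d

/-- `4 lam(Q) = {Q, Δ}`, if the points of order two are rational. -/
def LamDelta (Λ : AddSubgroup W.Point) (lam : W.Point → SKone K L) : Prop :=
  ∀ e₁ e₂ e₃ : K, Two W e₁ e₂ e₃ → ∀ D : Kˣ, (D : K) = W.Δ → ∀ Q ∈ Λ,
    4 • lam Q = br L Q D

/-- `{Q, x(a Q) - x(b Q)}` and `{Q, Δ}`, if the points of order two are rational. -/
def Discriminant (Λ : AddSubgroup W.Point) : Prop :=
  ∀ e₁ e₂ e₃ : K, Two W e₁ e₂ e₃ → ∀ D : Kˣ, (D : K) = W.Δ → ∀ Q ∈ Λ, Q ≠ 0 →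
    ∀ a b : ℤ, a ≠ 0 → b ≠ 0 → a ≠ b → a ≠ -b →
      ∀ c : Kˣ, (c : K) = xc (a • Q) - xc (b • Q) → 6 • br L Q c = br L Q D

/-- If `K` is the field of fractions of a Dedekind domain `R` with finite residue fields, then for
all but finitely many primes `v` there is a number `c` with `{Q, c} = 0` which is not a unit at
`v`. -/
def AlmostAllPrimes (R : Type w) [CommRing R] [IsDedekindDomain R] [Algebra R K]
    [IsFractionRing R K] (Λ : AddSubgroup W.Point) : Prop :=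
  ∀ Q ∈ Λ, Q ≠ 0 →
    {v : HeightOneSpectrum R | ¬ ∃ c : Kˣ, br L Q c = 0 ∧ v.valuation K (c : K) ≠ 1}.Finite ∧
    (Infinite (HeightOneSpectrum R) → ¬ FiniteDimensional ℚ (kerSpace L Q))

end

/-- `c` is one of the numbers `2, 3, 5, 7, 23, 29, 59`. -/
def IsSpecial (c : ℚˣ) : Prop := ∃ p ∈ ({2, 3, 5, 7, 23, 29, 59} : Finset ℕ), (c : ℚ) = p

/-- All the classes for elliptic curves over fields. -/
def General (K : Type u) [Field K] [DecidableEq K] (L : Type v) [Field L] [Algebra K L]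
    (R : Type w) [CommRing R] [IsDedekindDomain R] [Algebra R K] [IsFractionRing R K] : Prop :=
  ∀ (W : Affine K) (_ : W.IsElliptic) (_ : Algebra W.CoordinateRing L),
    IsScalarTower K W.CoordinateRing L → IsFractionRing W.CoordinateRing L →
    ∀ Λ : AddSubgroup W.Point, TF Λ →
      Additivity L Λ ∧ AtTwoTorsion L Λ ∧ Discriminant L Λ ∧
      (∃ lam : W.Point → SKone K L, IsLam L Λ lam ∧ Multiples L Λ lam ∧ LamDelta L Λ lam) ∧
      ((∀ v : HeightOneSpectrum R, Finite (R ⧸ v.asIdeal)) → AlmostAllPrimes L R Λ)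

/-- The curve `y² + y = x³ - x` over `ℚ` and the point `P = (0, 0)`: it is of infinite order, the
classes `{P, x(a P) - x(b P)}` and `{P, p}`, `p = 2, 3, 5, 7, 23, 29, 59`, vanish. -/
def Example37 (L : Type v) [Field L] [Algebra ℚ L] : Prop :=
  ∀ _ : Algebra E37.CoordinateRing L, IsScalarTower ℚ E37.CoordinateRing L →
    IsFractionRing E37.CoordinateRing L →
    (∀ n : ℕ, 0 < n → n • P37 ≠ 0) ∧
    (∀ a b : ℤ, a ≠ 0 → b ≠ 0 → a ≠ b → a ≠ -b →
      ∀ c : ℚˣ, (c : ℚ) = xc (a • P37) - xc (b • P37) → br L P37 c = 0) ∧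
    ∀ c : ℚˣ, IsSpecial c → br L P37 c = 0

theorem general (K : Type u) [Field K] [DecidableEq K] (L : Type v) [Field L] [Algebra K L]
    (R : Type w) [CommRing R] [IsDedekindDomain R] [Algebra R K] [IsFractionRing R K] :
    General K L R := by
  intro W _ _ hs hf Λ h
  have h3 : ∀ (x : SKone K L), (3 : ℚ) • x = 3 • x := fun x => by norm_cast
  have h2 : ∀ (x : SKone K L), (2 : ℚ) • x = 2 • x := fun x => by norm_cast
  have hmul : Multiples L Λ (lam (W := W) L) := by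
    intro Q hQ hQ0 a b ha hb hab hab'
    refine ⟨h.xc_ne hQ hQ0 ha hb hab hab', fun c hc => ?_⟩
    have e := h.int L hQ hQ0 ha hb hab hab'
    rw [un_eq hc, h3, h2] at e
    exact e
  have hdel : LamDelta L Λ (lam (W := W) L) := by
    intro e₁ e₂ e₃ hT D hD Q hQ
    have e := h.four L hQ hT
    rw [un_eq hD] at e
    exact e
  refine ⟨fun Q hQ R hR a => (h.add L hQ hR).1 a, ?_, ?_, ⟨lam L, ⟨?_, ?_⟩, hmul, hdel⟩, ?_⟩
  · intro e₁ e₂ e₃ hT Q hQ hQ0
    obtain ⟨k1, k2⟩ := h.two_rel L hQ hQ0 hT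
    refine ⟨sub_ne_zero.1 k1, fun c d hc hd => ?_⟩
    rw [un_eq hc, un_eq hd] at k2
    exact k2
  · intro e₁ e₂ e₃ hT D hD Q hQ hQ0 a b ha hb hab hab' c hc
    have e := hdel e₁ e₂ e₃ hT D hD Q hQ
    have e' := (hmul Q hQ hQ0 a b ha hb hab hab').2 c hc
    rw [← e]
    have e1 : 6 • br L Q c = 2 • (3 • br L Q c) := by
      rw [smul_smul]
      norm_num
    rw [e1, e', smul_smul]
    norm_num
  · exact fun Q hQ R hR => (h.add L hQ hR).2
  · intro Q hQ hQ0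
    refine ⟨psi_ne' (h.two hQ hQ0), fun c hc => ?_⟩
    unfold lam
    rw [un_eq hc]
  · intro hfin Q hQ hQ0
    exact ⟨h.almost L hQ hQ0 hfin, fun _ => h.infinite L hQ hQ0 hfin⟩

theorem example37 (L : Type v) [Field L] [Algebra ℚ L] : Example37 L := by
  intro _ hs hf
  refine ⟨fun n hn => P37_order hn, fun a b ha hb hab hab' c hc => ?_, ?_⟩
  · have e := br37 L ha hb hab hab'
    rwa [un_eq hc] at e
  · rintro c ⟨p, hp, hc⟩
    exact br37_primes L p hp c hc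

/-- The relations between the classes `{Q, a}`. -/
theorem result (K : Type u) [Field K] [DecidableEq K] (L : Type v) [Field L] [Algebra K L]
    (R : Type w) [CommRing R] [IsDedekindDomain R] [Algebra R K] [IsFractionRing R K]
    (M : Type v) [Field M] [Algebra ℚ M] :
    General K L R ∧ Example37 M :=
  ⟨general K L R, example37 M⟩

end Pool.Agent.Results.MP_51fc19_nt.ConstantsAtPoints
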