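import Pool.Agent.H442.SpecF
import Pool.Agent.H442.Fin6
set_option autoImplicit false

/-!
Integral classes in the motivic cohomology `H^{d+1}(X, ℚ(d+1))` of varieties of dimension `d` over the
rational numbers (so that the arithmetic scheme has dimension `d + 1`; index `i = d` of the problem):
families with `2^d r` classes.

Let `b_l, c_l ≥ 1`, `b_l + c_l < 2 a_l`, `1 ≤ l ≤ d`. For monic polynomials `A`, `D` of degrees
`n > p ≥ 1` consider the variety `X` of dimension `d` with the equation
`D(x) ∏_l (y_l^2 - y_l + 1)^{a_l} = A(x) ∏_l y_l^{b_l} (1 - y_l)^{c_l} ≠ 0`. For `r p < n` the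
varieties of this form over the rational numbers with `2^d r` classes in `K_{d+1}`, unramified at all
discrete valuations and with independent regulators, are Zariski dense in the space of all pairs
`(A, D)`.

The zeros of `A` lie below the hypersurfaces on which one of the functions `y_l` is a primitive sixth
root of unity; there both `y_l` and `1 - y_l` are roots of unity. The members are, up to translations
of `x`, `D = ∏_{l ≤ p} (x - β_l)`, `β_l` different prime numbers, and
`A = x ∏_{k ≤ r} R_k ∏_i (x - λ_i)` with the monic polynomials `R_k ≡ x^{j_k} mod D` of degree `p`,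
with large different exponents `j_k`; the classes are the symbols `{R_k(x) / x^{j_k}, f_1, ..., f_d}`,
`f_l ∈ {y_l, 1 - y_l}`; the tori are products of circles `|y_l| = 1/2`, `|1 - y_l| = 1/2` in the
sheets with a value of `x` near the large zero of `R_k`.
-/

namespace Pool.Agent.Results.MP_51fc19_nt.ExponentiallyManyClasses

open Polynomial

open Pool.Agent.TH826.MK (KQ KQ.map Unramified Torus)

open Pool.Agent.H442

/-- Let `b_l, c_l ≥ 1`, `b_l + c_l < 2 a_l`, `1 ≤ l ≤ d`, and let `p, r ≥ 1`, `r p < n`. For every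
nonzero complex polynomial `H` in the `n + p` coefficients of a pair of monic polynomials of degrees
`n` and `p` there are monic polynomials `A`, `D` in `ℤ[x]` of degrees `n` and `p`, which are not a
zero of `H`, such that for the coordinate ring `QR a b c A D` of the variety
`D(x) ∏_l (y_l^2 - y_l + 1)^{a_l} = A(x) ∏_l y_l^{b_l} (1 - y_l)^{c_l}`,
`A(x) ∏_l y_l (1 - y_l) ≠ 0` over `ℚ` there are `2^d r` classes in `K_{d+1}(QR a b c A D) ⊗ ℚ`, whose
images in all fields `L` with a homomorphism `QR a b c A D → L` are unramified at all discrete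
valuations of `L`, and `2^d r` tori of dimension `d` in the complex points, at which the derivative of
the equation with respect to `x` is different from zero, such that the determinant of the regulators
of the classes on the tori is different from zero. -/
theorem result.{v} {d : ℕ} (a b c : Fin d → ℕ) (hb : ∀ l, 1 ≤ b l) (hc : ∀ l, 1 ≤ c l)
    (habc : ∀ l, b l + c l < 2 * a l) (n p r : ℕ) (hp : 1 ≤ p) (hr : 1 ≤ r) (hrp : r * p < n)
    (H : MvPolynomial (Fin n ⊕ Fin p) ℂ) (hH : H ≠ 0) :
    ∃ A D : ℤ[X], A.Monic ∧ A.natDegree = n ∧ D.Monic ∧ D.natDegree = p ∧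
      MvPolynomial.eval (Sum.elim (fun i : Fin n => (A.coeff i : ℂ))
        (fun l : Fin p => (D.coeff l : ℂ))) H ≠ 0 ∧
      ∃ w : Fin r × (Fin d → Fin 2) → KQ (QR a b c A D) (d + 1),
        (∀ (k : Fin r × (Fin d → Fin 2)) (L : Type v) [Field L] (f : QR a b c A D →+* L),
          KQ.map (d + 1) f (w k) ∈ Unramified L (d + 1)) ∧
        ∃ Γ : Fin r × (Fin d → Fin 2) → Torus (QR a b c A D) d,
          (∀ i θ, (Γ i).e θ (mkQ a b c A D
            (MvPolynomial.pderiv (Sum.inr 0) (eqnQ a b c A D))) ≠ 0) ∧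
          (Matrix.of fun i k => (Γ i).reg (w k)).det ≠ 0 := by
  obtain ⟨g, rfl⟩ : ∃ g, n = g + 1 := ⟨n - 1, by omega⟩
  obtain ⟨H', hH', hHH⟩ := exists_rat H hH
  have hV : ¬ Van3 r (g - r * p) H' := fun h => hH' (dens3 hp (by omega) h)
  unfold Van3 at hV
  push Not at hV
  obtain ⟨β, hβ, hpr, lam, hV⟩ := hV
  have hMm : (∏ i, (X - C (lam i)) : ℤ[X]).Monic := monic_prod_of_monic _ _ fun _ _ =>
    monic_X_sub_C _
  have hMd : (∏ i, (X - C (lam i)) : ℤ[X]).natDegree = g - r * p := by
    rw [natDegree_prod_of_monic _ _ fun _ _ => monic_X_sub_C _]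
    simp only [natDegree_X_sub_C, Finset.sum_const, Finset.card_univ, Fintype.card_fin,
      smul_eq_mul, mul_one]
  obtain ⟨J, hJ⟩ := specQ hb hc habc hp hβ (fun l => (hpr l).two_le) hMm (r := r) (by omega)
  obtain ⟨j, hj, hjJ, ν, hne⟩ := hV J
  have hAm : (X * (∏ k, Rz β (j k)) * ∏ i, (X - C (lam i)) : ℤ[X]).Monic :=
    (monic_X.mul (monic_prod_of_monic _ _ fun k _ => Rz_monic β (j k))).mul hMm
  have hAd : (X * (∏ k, Rz β (j k)) * ∏ i, (X - C (lam i)) : ℤ[X]).natDegree = g + 1 := by
    rw [(monic_X.mul (monic_prod_of_monic _ _ fun k _ => Rz_monic β (j k))).natDegree_mul hMm,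
      monic_X.natDegree_mul (monic_prod_of_monic _ _ fun k _ => Rz_monic β (j k)), hMd,
      natDegree_X, natDegree_prod_of_monic _ _ fun k _ => Rz_monic β (j k)]
    simp only [Rz_natDegree, Finset.sum_const, Finset.card_univ, Fintype.card_fin, smul_eq_mul]
    omega
  have hX1 : (X + C ν : ℤ[X]).natDegree = 1 := natDegree_X_add_C ν
  have hAF : AF (fun k => Rz β (j k)) lam ν =
      (X * (∏ k, Rz β (j k)) * ∏ i, (X - C (lam i))).comp (X + C ν) := rfl
  rw [hAF] at hne
  refine ⟨(X * (∏ k, Rz β (j k)) * ∏ i, (X - C (lam i))).comp (X + C ν),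
    (Dz β).comp (X + C ν), hAm.comp (monic_X_add_C ν) (by rw [hX1]; norm_num),
    by rw [natDegree_comp, hX1, mul_one, hAd],
    (Dz_monic β).comp (monic_X_add_C ν) (by rw [hX1]; norm_num),
    by rw [natDegree_comp, hX1, mul_one, Dz_natDegree], ?_,
    hJ j hj hjJ ν _ _ rfl rfl⟩
  have h3 := hHH (Sum.elim (fun i : Fin (g + 1) =>
      (((X * (∏ k, Rz β (j k)) * ∏ i, (X - C (lam i))).comp (X + C ν)).coeff i : ℚ))
    (fun l : Fin p => (((Dz β).comp (X + C ν)).coeff l : ℚ))) (by
      rw [MvPolynomial.aeval_def, MvPolynomial.eval₂_eq_eval_map] at hne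
      simpa using hne)
  have h4 : (fun i => algebraMap ℚ ℂ (Sum.elim (fun i : Fin (g + 1) =>
      (((X * (∏ k, Rz β (j k)) * ∏ i, (X - C (lam i))).comp (X + C ν)).coeff i : ℚ))
      (fun l : Fin p => (((Dz β).comp (X + C ν)).coeff l : ℚ)) i)) =
      Sum.elim (fun i : Fin (g + 1) =>
        (((X * (∏ k, Rz β (j k)) * ∏ i, (X - C (lam i))).comp (X + C ν)).coeff i : ℂ))
        (fun l : Fin p => (((Dz β).comp (X + C ν)).coeff l : ℂ)) := by
    funext i
    rcases i with i | i <;> simp
  rwa [h4] at h3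

end Pool.Agent.Results.MP_51fc19_nt.ExponentiallyManyClasses
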