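import Pool.Agent.H442.Fin7
set_option autoImplicit false

/-!
Independent classes in the integral part of `K_2` of curves over the rational numbers, with two
functions on the line.

For monic polynomials `B`, `D` of degrees `n > p ≥ 1` consider the curve
`D(x) (t^2 - t + 1)^2 = B(x) t (1 - t)`, a covering of degree `4` of the `x`-line and of degree `n`
of the `t`-line. The functions `t` and `1 - t` are sixth roots of unity at the zeros of `B` and
have their zeros and poles at the poles of `B / D`. For `r p < n` the curves of this form over the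
rational numbers which are geometrically irreducible and have `2 r` classes in the integral part of
`K_2` with independent regulators are Zariski dense in the space of all pairs `(B, D)`. For
`p = 1`, `r = n - 1` these are `2 (n - 1)` classes, the genus is `3 (n - 1) - ⌊(n - 1) / 2⌋`.

The members are, up to translations of `x`, `D = ∏_{l ≤ p} (x - β_l)`, `β_l` different prime
numbers, and `B = x ∏_{k ≤ r} R_k ∏_i (x - λ_i)` with the monic polynomials `R_k ≡ x^{j_k} mod D`
of degree `p`, with large different exponents `j_k`; the classes are the symbols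
`{t, R_k(x) / x^{j_k}}` and `{1 - t, R_k(x) / x^{j_k}}`.
-/

namespace Pool.Agent.Results.MP_51fc19_nt.QuarticCovers

open Polynomial

open Pool.Agent.TH826.MK (KQ Unramified Torus)

open Pool.Agent.H442

/-- Let `p, r ≥ 1` and `r p < n`. For every nonzero complex polynomial `H` in the `n + p`
coefficients of a pair of monic polynomials of degrees `n` and `p` there are monic polynomials `B`,
`D` in `ℤ[x]` of degrees `n` and `p`, which are not a zero of `H`, such that the polynomial
`D(x) (t ^ 2 - t + 1) ^ 2 - B(x) t (1 - t)` is irreducible in `ℂ[x, t]` and for every fraction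
field `L` of the domain `ℚ[x, t]/(D(x) (t ^ 2 - t + 1) ^ 2 - B(x) t (1 - t))` there are `2 r`
classes in `K_2(L) ⊗ ℚ`, unramified at all discrete valuations of `L`, and `2 r` loops in the
spectrum of `L` such that the determinant of the regulators of the classes along the loops is
different from zero. -/
theorem result (n p r : ℕ) (hp : 1 ≤ p) (hr : 1 ≤ r) (hrp : r * p < n)
    (H : MvPolynomial (Fin n ⊕ Fin p) ℂ) (hH : H ≠ 0) :
    ∃ B D : ℤ[X], B.Monic ∧ B.natDegree = n ∧ D.Monic ∧ D.natDegree = p ∧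
      MvPolynomial.eval (Sum.elim (fun i : Fin n => (B.coeff i : ℂ))
        (fun l : Fin p => (D.coeff l : ℂ))) H ≠ 0 ∧
      Irreducible (C (D.map (Int.castRingHom ℂ)) * (X ^ 2 - X + 1) ^ 2 -
        C (B.map (Int.castRingHom ℂ)) * (X * (1 - X)) : ℂ[X][X]) ∧
      ∃ G : ℚ[X][X], G = C (D.map (Int.castRingHom ℚ)) * (X ^ 2 - X + 1) ^ 2 -
          C (B.map (Int.castRingHom ℚ)) * (X * (1 - X)) ∧ IsDomain (AdjoinRoot G) ∧
        ∀ (L : Type) [Field L] [Algebra (AdjoinRoot G) L] [IsFractionRing (AdjoinRoot G) L],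
          ∃ w : Fin 2 × Fin r → KQ L 2, (∀ k, w k ∈ Unramified L 2) ∧
            ∃ Γ : Fin 2 × Fin r → Torus L 1,
              (Matrix.of fun i k => (Γ i).reg (w k)).det ≠ 0 := by
  obtain ⟨g, rfl⟩ : ∃ g, n = g + 1 := ⟨n - 1, by omega⟩
  have hpg : p ≤ g := (Nat.le_mul_of_pos_left p hr).trans (by omega)
  obtain ⟨H', hH', hHH⟩ := exists_rat H hH
  obtain ⟨Δ, hΔ0, hΔ⟩ := exists_discAD (g := g) (p := p) hpg
  have h0 : H' * Δ ≠ 0 := mul_ne_zero hH' hΔ0
  have hV : ¬ Van3 r (g - r * p) (H' * Δ) := fun h => h0 (dens3 hp (by omega) h)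
  unfold Van3 at hV
  push Not at hV
  obtain ⟨β, hβ, hpr, lam, hV⟩ := hV
  have hMm : (∏ i, (X - C (lam i)) : ℤ[X]).Monic := monic_prod_of_monic _ _ fun _ _ =>
    monic_X_sub_C _
  have hMd : (∏ i, (X - C (lam i)) : ℤ[X]).natDegree = g - r * p := by
    rw [natDegree_prod_of_monic _ _ fun _ _ => monic_X_sub_C _]
    simp only [natDegree_X_sub_C, Finset.sum_const, Finset.card_univ, Fintype.card_fin,
      smul_eq_mul, mul_one]
  obtain ⟨J, hJ⟩ := spec7 hp hβ (fun l => (hpr l).two_le) hMm (r := r) (by omega)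
  obtain ⟨j, hj, hjJ, ν, hne⟩ := hV J
  have h1 := hJ j hj hjJ _ _ rfl rfl
  -- the polynomials before the translation
  have hBm : (X * (∏ k, Rz β (j k)) * ∏ i, (X - C (lam i)) : ℤ[X]).Monic :=
    (monic_X.mul (monic_prod_of_monic _ _ fun k _ => Rz_monic β (j k))).mul hMm
  have hBd : (X * (∏ k, Rz β (j k)) * ∏ i, (X - C (lam i)) : ℤ[X]).natDegree = g + 1 := by
    rw [(monic_X.mul (monic_prod_of_monic _ _ fun k _ => Rz_monic β (j k))).natDegree_mul hMm,
      monic_X.natDegree_mul (monic_prod_of_monic _ _ fun k _ => Rz_monic β (j k)), hMd,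
      natDegree_X, natDegree_prod_of_monic _ _ fun k _ => Rz_monic β (j k)]
    simp only [Rz_natDegree, Finset.sum_const, Finset.card_univ, Fintype.card_fin, smul_eq_mul]
    omega
  have hBX : (X * (∏ k, Rz β (j k)) * ∏ i, (X - C (lam i)) : ℤ[X]).eval 0 = 0 := by
    rw [eval_mul, eval_mul, eval_X, zero_mul, zero_mul]
  have hDm := Dz_monic β
  have hDd := Dz_natDegree β
  have hsqD := fun (F : Type) (i1 : Field F) (i2 : CharZero F) =>
    @squarefree_Dz F i1 i2 p β hβ
  have hrtD := fun (F : Type) (i1 : Field F) => @root_Dz F i1 p β ⟨0, hp⟩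
  have hAF : AF (fun k => Rz β (j k)) lam ν =
      (X * (∏ k, Rz β (j k)) * ∏ i, (X - C (lam i))).comp (X + C ν) := rfl
  rw [hAF] at hne
  generalize (X * (∏ k, Rz β (j k)) * ∏ i, (X - C (lam i)) : ℤ[X]) = B at *
  generalize Dz β = D at *
  have hX1 : (X + C ν : ℤ[X]).natDegree = 1 := natDegree_X_add_C ν
  have hB1 : (B.comp (X + C ν)).Monic := hBm.comp (monic_X_add_C ν) (by rw [hX1]; norm_num)
  have hD1 : (D.comp (X + C ν)).Monic := hDm.comp (monic_X_add_C ν) (by rw [hX1]; norm_num)
  have hB2 : (B.comp (X + C ν)).natDegree = g + 1 := by rw [natDegree_comp, hX1, mul_one, hBd]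
  have hD2 : (D.comp (X + C ν)).natDegree = p := by rw [natDegree_comp, hX1, mul_one, hDd]
  rw [map_mul] at hne
  have hne1 := left_ne_zero_of_mul hne
  have hne2 := right_ne_zero_of_mul hne
  -- coprimality
  have hsq : Squarefree ((B.comp (X + C ν)).map (Int.castRingHom ℚ) *
      ((B.comp (X + C ν)).map (Int.castRingHom ℚ) +
        4 * (D.comp (X + C ν)).map (Int.castRingHom ℚ))) := by
    refine hΔ _ _ (hB1.map _) (by rw [hB1.natDegree_map, hB2]) (hD1.map _)
      (by rw [hD1.natDegree_map, hD2]) ?_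
    simp only [coeff_map, eq_intCast]
    exact hne2
  have hcop : IsCoprime ((B.comp (X + C ν)).map (Int.castRingHom ℚ))
      ((D.comp (X + C ν)).map (Int.castRingHom ℚ)) := by
    rw [← isRelPrime_iff_isCoprime]
    intro d hd1 hd2
    exact hsq d (mul_dvd_mul hd1 (dvd_add hd1 (hd2.mul_left _)))
  have hsqB : Squarefree ((B.comp (X + C ν)).map (Int.castRingHom ℚ)) :=
    hsq.squarefree_of_dvd (dvd_mul_right _ _)
  obtain ⟨hcop0, hsqB0⟩ := untranslate hcop hsqB
  have hirr : ∀ (F : Type) [Field F] [CharZero F],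
      Irreducible (QG ((B.comp (X + C ν)).map (Int.castRingHom F))
        ((D.comp (X + C ν)).map (Int.castRingHom F))) := by
    intro F _ _
    exact QG_irr (coprime_map6 hcop) (squarefree_map6 hsqB) (hsqD F _ inferInstance ν) (root_comp hBX ν)
      (hrtD F _ ν)
  have hirr0 : Irreducible (QG (B.map (algebraMap ℤ ℚ)) (D.map (algebraMap ℤ ℚ))) := by
    have h3 := hsqD ℚ inferInstance inferInstance 0
    have h4 := hrtD ℚ inferInstance 0
    have h5 := root_comp (K := ℚ) hBX 0
    have e1 : (X : ℤ[X]) + C 0 = X := by rw [C_0, add_zero]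
    rw [e1, comp_X] at h3 h4 h5
    exact QG_irr hcop0 hsqB0 h3 h5 h4
  have h2 := h1 hirr0
  have hcomp : ∀ P : ℤ[X], (P.comp (X + C ν)).map (Int.castRingHom ℚ) =
      (P.map (algebraMap ℤ ℚ)).comp (X + C (ν : ℚ)) := by
    intro P
    rw [Polynomial.map_comp]
    simp
  refine ⟨B.comp (X + C ν), D.comp (X + C ν), hB1, hB2, hD1, hD2, ?_, hirr ℂ, _, rfl,
    isDomain_A (hirr ℚ), ?_⟩
  · have h3 := hHH (Sum.elim (fun i : Fin (g + 1) => ((B.comp (X + C ν)).coeff i : ℚ))
      (fun l : Fin p => ((D.comp (X + C ν)).coeff l : ℚ))) (by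
        rw [MvPolynomial.aeval_def, MvPolynomial.eval₂_eq_eval_map] at hne1
        simpa using hne1)
    have h4 : (fun i => algebraMap ℚ ℂ (Sum.elim
        (fun i : Fin (g + 1) => ((B.comp (X + C ν)).coeff i : ℚ))
        (fun l : Fin p => ((D.comp (X + C ν)).coeff l : ℚ)) i)) =
        Sum.elim (fun i : Fin (g + 1) => ((B.comp (X + C ν)).coeff i : ℂ))
          (fun l : Fin p => ((D.comp (X + C ν)).coeff l : ℂ)) := by
      funext i
      rcases i with i | i <;> simp
    rwa [h4] at h3
  · intro L _ _ _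
    exact transfer7 h2 (ν : ℚ) (hcomp B) (hcomp D) rfl L

end Pool.Agent.Results.MP_51fc19_nt.QuarticCovers
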